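import Mathlib

open Finset
open scoped Pointwise

namespace Pool.Agent.Results.MP_c0ccbe_al.Disproof

/-- vertices: `Sum.inl x` is the point `x`, `Sum.inr i` is the colour `i`. -/
abbrev U := ℕ ⊕ ℕ

/-- the points of a finite vertex set -/
def pts (S : Finset U) : Finset U := S.filter (fun u => u.isLeft = true)

/-- number of edges inside `S` -/
def e (H : Finset (Finset U)) (S : Finset U) : ℕ := (H.filter (fun h => h ⊆ S)).card

/-- predimension -/
def dl (H : Finset (Finset U)) (S : Finset U) : ℤ := (S.card : ℤ) - (e H S : ℤ)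

theorem e_submod (H : Finset (Finset U)) (S T : Finset U) :
    e H S + e H T ≤ e H (S ∪ T) + e H (S ∩ T) := by
  unfold e
  have h1 : H.filter (fun h => h ⊆ S) ∩ H.filter (fun h => h ⊆ T)
      = H.filter (fun h => h ⊆ S ∩ T) := by
    ext h; simp only [mem_inter, mem_filter, subset_inter_iff]; tauto
  have h2 : H.filter (fun h => h ⊆ S) ∪ H.filter (fun h => h ⊆ T)
      ⊆ H.filter (fun h => h ⊆ S ∪ T) := by
    intro h hh
    simp only [mem_union, mem_filter] at hh ⊢
    rcases hh with hh | hh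
    · exact ⟨hh.1, hh.2.trans subset_union_left⟩
    · exact ⟨hh.1, hh.2.trans subset_union_right⟩
  have h3 := card_union_add_card_inter (H.filter (fun h => h ⊆ S)) (H.filter (fun h => h ⊆ T))
  have h4 := card_le_card h2
  rw [h1] at h3
  omega

theorem dl_submod (H : Finset (Finset U)) (S T : Finset U) :
    dl H (S ∪ T) + dl H (S ∩ T) ≤ dl H S + dl H T := by
  have h1 := e_submod H S T
  have h2 := card_union_add_card_inter S T
  unfold dl
  omega

theorem e_mono (H : Finset (Finset U)) {S T : Finset U} (h : S ⊆ T) : e H S ≤ e H T := by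
  apply card_le_card
  intro x hx
  rw [mem_filter] at hx ⊢
  exact ⟨hx.1, hx.2.trans h⟩

/-- `A` is strong in `V` -/
def Str (H : Finset (Finset U)) (A V : Finset U) : Prop :=
  A ⊆ V ∧ ∀ S, A ⊆ S → S ⊆ V → dl H A ≤ dl H S

theorem Str.refl (H : Finset (Finset U)) (A : Finset U) : Str H A A := by
  refine ⟨Subset.refl _, ?_⟩
  intro S h1 h2
  rw [Subset.antisymm h1 h2]

theorem Str.inter {H : Finset (Finset U)} {A V : Finset U} (h : Str H A V) {S : Finset U}
    (hS : S ⊆ V) : dl H (A ∩ S) ≤ dl H S := by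
  have h1 := dl_submod H A S
  have h2 := h.2 (A ∪ S) subset_union_left (union_subset h.1 hS)
  omega

theorem Str.trans {H : Finset (Finset U)} {A V W : Finset U} (h : Str H A V) (h' : Str H V W) :
    Str H A W := by
  refine ⟨h.1.trans h'.1, ?_⟩
  intro S h1 h2
  have h3 := h'.inter h2
  have h4 := h.2 (V ∩ S) (subset_inter h.1 h1) inter_subset_left
  omega

/-- two edge sets agree inside `V` -/
def Agr (H H' : Finset (Finset U)) (V : Finset U) : Prop := ∀ h, h ⊆ V → (h ∈ H ↔ h ∈ H')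

theorem Agr.e {H H' : Finset (Finset U)} {V : Finset U} (h : Agr H H' V) {S : Finset U}
    (hS : S ⊆ V) : e H S = e H' S := by
  unfold Pool.Agent.Results.MP_c0ccbe_al.Disproof.e
  congr 1
  ext x
  rw [mem_filter, mem_filter]
  constructor
  · rintro ⟨h1, h2⟩; exact ⟨(h x (h2.trans hS)).1 h1, h2⟩
  · rintro ⟨h1, h2⟩; exact ⟨(h x (h2.trans hS)).2 h1, h2⟩

theorem Agr.dl {H H' : Finset (Finset U)} {V : Finset U} (h : Agr H H' V) {S : Finset U}
    (hS : S ⊆ V) : dl H S = dl H' S := by
  unfold Pool.Agent.Results.MP_c0ccbe_al.Disproof.dl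
  rw [h.e hS]

theorem Agr.str {H H' : Finset (Finset U)} {V : Finset U} (h : Agr H H' V) {A : Finset U}
    (hA : Str H A V) : Str H' A V := by
  refine ⟨hA.1, ?_⟩
  intro S h1 h2
  rw [← h.dl h2, ← h.dl hA.1]
  exact hA.2 S h1 h2

/-- the class of finite structures -/
structure IsK (t : ℕ) (V : Finset U) (H : Finset (Finset U)) : Prop where
  sub : ∀ h ∈ H, h ⊆ V
  card : ∀ h ∈ H, h.card = t + 1
  pcard : ∀ h ∈ H, (pts h).card = t
  lin : ∀ h ∈ H, ∀ h' ∈ H, ∀ W : Finset U, W.card = t → W ⊆ h → W ⊆ h' → h = h'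
  dim : ∀ S, S ⊆ V → t + 1 ≤ (pts S).card → (t : ℤ) + 1 ≤ dl H S

theorem pts_mono {S T : Finset U} (h : S ⊆ T) : pts S ⊆ pts T := filter_subset_filter _ h

theorem pts_sub (S : Finset U) : pts S ⊆ S := filter_subset _ _

theorem IsK.e_le_one {t : ℕ} {V : Finset U} {H : Finset (Finset U)} (hK : IsK t V H)
    {S : Finset U} (hS : (pts S).card ≤ t) : e H S ≤ 1 := by
  apply card_le_one.2
  intro a ha b hb
  rw [mem_filter] at ha hb
  have h1 : pts a = pts S := eq_of_subset_of_card_le (pts_mono ha.2) (by rw [hK.pcard a ha.1]; exact hS)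
  have h2 : pts b = pts S := eq_of_subset_of_card_le (pts_mono hb.2) (by rw [hK.pcard b hb.1]; exact hS)
  exact hK.lin a ha.1 b hb.1 (pts a) (hK.pcard a ha.1) (pts_sub a) (by rw [h1, ← h2]; exact pts_sub b)

theorem card_ge_of_edge {t : ℕ} {h S : Finset U} (hc : h.card = t + 1) (hp : (pts h).card = t)
    (hS : h ⊆ S) : (pts S).card + 1 ≤ S.card := by
  have h1 : (pts h) ≠ h := by intro h2; rw [h2] at hp; omega
  have h2 : ∃ c ∈ h, c ∉ pts h := by
    by_contra hcon
    push Not at hcon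
    exact h1 (Subset.antisymm (pts_sub h) hcon)
  obtain ⟨c, hc1, hc2⟩ := h2
  have h3 : c ∉ pts S := by
    intro h4
    apply hc2
    unfold pts at h4 ⊢
    rw [mem_filter] at h4 ⊢
    exact ⟨hc1, h4.2⟩
  have h4 : insert c (pts S) ⊆ S := insert_subset (hS hc1) (pts_sub S)
  have h5 := card_le_card h4
  rw [card_insert_of_notMem h3] at h5
  exact h5

theorem card_union_edges {t : ℕ} {H : Finset (Finset U)} {a b : Finset U}
    (hlin : ∀ h ∈ H, ∀ h' ∈ H, ∀ W : Finset U, W.card = t → W ⊆ h → W ⊆ h' → h = h')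
    (hcard : ∀ h ∈ H, h.card = t + 1)
    (ha : a ∈ H) (hb : b ∈ H) (hab : a ≠ b) : t + 3 ≤ (a ∪ b).card := by
  have h1 : (a ∩ b).card < t := by
    by_contra hcon
    push Not at hcon
    obtain ⟨W, hW1, hW2⟩ := exists_subset_card_eq hcon
    exact hab (hlin a ha b hb W hW2 (hW1.trans inter_subset_left) (hW1.trans inter_subset_right))
  have h2 := card_union_add_card_inter a b
  rw [hcard a ha, hcard b hb] at h2
  omega

theorem dim_of_e_le_two {t : ℕ} {H : Finset (Finset U)}
    (hlin : ∀ h ∈ H, ∀ h' ∈ H, ∀ W : Finset U, W.card = t → W ⊆ h → W ⊆ h' → h = h')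
    (hcard : ∀ h ∈ H, h.card = t + 1) (hpcard : ∀ h ∈ H, (pts h).card = t)
    {S : Finset U} (hS : t + 1 ≤ (pts S).card) (he : e H S ≤ 2) : (t : ℤ) + 1 ≤ dl H S := by
  have h0 : (pts S).card ≤ S.card := card_le_card (pts_sub S)
  rcases Nat.lt_or_ge (e H S) 1 with h1 | h1
  · unfold dl; omega
  · rcases Nat.lt_or_ge (e H S) 2 with h2 | h2
    · have h3 : (H.filter (fun h => h ⊆ S)).Nonempty := by
        rw [← card_pos]; exact h1
      obtain ⟨h, hh⟩ := h3
      rw [mem_filter] at hh
      have h4 := card_ge_of_edge (hcard h hh.1) (hpcard h hh.1) hh.2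
      unfold dl; omega
    · have h3 : 1 < (H.filter (fun h => h ⊆ S)).card := h2
      obtain ⟨a, b, ha, hb, hab⟩ := one_lt_card_iff.1 h3
      rw [mem_filter] at ha hb
      have h4 := card_union_edges hlin hcard ha.1 hb.1 hab
      have h5 := card_le_card (union_subset ha.2 hb.2)
      unfold dl; omega

section amalgam

variable {t : ℕ} {V1 V2 : Finset U} {H1 H2 : Finset (Finset U)}

theorem agr_left (hK2 : IsK t V2 H2) (hag : Agr H1 H2 (V1 ∩ V2)) : Agr H1 (H1 ∪ H2) V1 := by
  intro h hh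
  constructor
  · intro h1; exact mem_union_left _ h1
  · intro h1
    rcases mem_union.1 h1 with h1 | h1
    · exact h1
    · exact (hag h (subset_inter hh (hK2.sub h h1))).2 h1

theorem agr_right (hK1 : IsK t V1 H1) (hag : Agr H1 H2 (V1 ∩ V2)) : Agr H2 (H1 ∪ H2) V2 := by
  intro h hh
  constructor
  · intro h1; exact mem_union_right _ h1
  · intro h1
    rcases mem_union.1 h1 with h1 | h1
    · exact (hag h (subset_inter (hK1.sub h h1) hh)).1 h1
    · exact h1

theorem e_union (hK1 : IsK t V1 H1) (hK2 : IsK t V2 H2) (hag : Agr H1 H2 (V1 ∩ V2))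
    (S : Finset U) :
    e (H1 ∪ H2) S + e H1 (S ∩ (V1 ∩ V2)) = e H1 (S ∩ V1) + e H2 (S ∩ V2) := by
  unfold e
  have h1 : (H1.filter (fun h => h ⊆ S ∩ V1)) ∪ (H2.filter (fun h => h ⊆ S ∩ V2))
      = (H1 ∪ H2).filter (fun h => h ⊆ S) := by
    ext h
    simp only [mem_union, mem_filter, subset_inter_iff]
    constructor
    · rintro (h1 | h1)
      · exact ⟨Or.inl h1.1, h1.2.1⟩
      · exact ⟨Or.inr h1.1, h1.2.1⟩
    · rintro ⟨h1 | h1, h2⟩
      · exact Or.inl ⟨h1, h2, hK1.sub h h1⟩
      · exact Or.inr ⟨h1, h2, hK2.sub h h1⟩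
  have h2 : (H1.filter (fun h => h ⊆ S ∩ V1)) ∩ (H2.filter (fun h => h ⊆ S ∩ V2))
      = H1.filter (fun h => h ⊆ S ∩ (V1 ∩ V2)) := by
    ext h
    simp only [mem_inter, mem_filter, subset_inter_iff]
    constructor
    · rintro ⟨⟨h1, h2, h3⟩, ⟨h4, h5, h6⟩⟩
      exact ⟨h1, h2, h3, h6⟩
    · rintro ⟨h1, h2, h3, h4⟩
      exact ⟨⟨h1, h2, h3⟩, (hag h (subset_inter h3 h4)).1 h1, h2, h4⟩
  rw [← h1, ← h2]
  exact card_union_add_card_inter _ _

theorem dl_union (hK1 : IsK t V1 H1) (hK2 : IsK t V2 H2) (hag : Agr H1 H2 (V1 ∩ V2))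
    {S : Finset U} (hS : S ⊆ V1 ∪ V2) :
    dl (H1 ∪ H2) S + dl H1 (S ∩ (V1 ∩ V2)) = dl H1 (S ∩ V1) + dl H2 (S ∩ V2) := by
  have h1 := e_union hK1 hK2 hag S
  have h2 := card_union_add_card_inter (S ∩ V1) (S ∩ V2)
  have h3 : (S ∩ V1) ∪ (S ∩ V2) = S := by
    rw [← inter_union_distrib_left]; exact inter_eq_left.2 hS
  have h4 : (S ∩ V1) ∩ (S ∩ V2) = S ∩ (V1 ∩ V2) := by
    ext x; simp only [mem_inter]; tauto
  rw [h3, h4] at h2
  unfold dl
  omega

theorem free_amalgam (hK1 : IsK t V1 H1) (hK2 : IsK t V2 H2) (hag : Agr H1 H2 (V1 ∩ V2))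
    (hs1 : Str H1 (V1 ∩ V2) V1) (hs2 : Str H2 (V1 ∩ V2) V2)
    (hno : ∀ (W : Finset U) (b c : U), W ⊆ V1 ∩ V2 → W.card = t → b ∈ V1 → b ∉ V2 → c ∈ V2 →
      c ∉ V1 → insert b W ∈ H1 → insert c W ∈ H2 → False) :
    IsK t (V1 ∪ V2) (H1 ∪ H2) ∧ Str (H1 ∪ H2) V1 (V1 ∪ V2) ∧ Str (H1 ∪ H2) V2 (V1 ∪ V2) := by
  have hag1 := agr_left hK2 hag
  have hag2 := agr_right hK1 hag
  -- bounds on dl
  have key1 : ∀ S, S ⊆ V1 ∪ V2 → dl H1 (S ∩ V1) ≤ dl (H1 ∪ H2) S := by
    intro S hS
    have h1 := dl_union hK1 hK2 hag hS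
    have h2 := hs2.inter (S := S ∩ V2) inter_subset_right
    have h3 : (V1 ∩ V2) ∩ (S ∩ V2) = S ∩ (V1 ∩ V2) := by
      ext x; simp only [mem_inter]; tauto
    rw [h3, ← hag.dl inter_subset_right] at h2
    omega
  have key2 : ∀ S, S ⊆ V1 ∪ V2 → dl H2 (S ∩ V2) ≤ dl (H1 ∪ H2) S := by
    intro S hS
    have h1 := dl_union hK1 hK2 hag hS
    have h2 := hs1.inter (S := S ∩ V1) inter_subset_right
    have h3 : (V1 ∩ V2) ∩ (S ∩ V1) = S ∩ (V1 ∩ V2) := by
      ext x; simp only [mem_inter]; tauto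
    rw [h3] at h2
    omega
  have hlin12 : ∀ h ∈ H1, ∀ h' ∈ H2, ∀ W : Finset U, W.card = t → W ⊆ h → W ⊆ h' → h = h' := by
    intro h hh h' hh' W hW hWh hWh'
    have hWA : W ⊆ V1 ∩ V2 :=
      subset_inter (hWh.trans (hK1.sub h hh)) (hWh'.trans (hK2.sub h' hh'))
    have hc1 := hK1.card h hh
    have hc2 := hK2.card h' hh'
    obtain ⟨b, hb1, hb2⟩ : ∃ b, b ∉ W ∧ insert b W = h := by
      have h1 : (h \ W).card = 1 := by rw [card_sdiff_of_subset hWh]; omega
      obtain ⟨b, hb⟩ := card_eq_one.1 h1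
      refine ⟨b, ?_, ?_⟩
      · have : b ∈ h \ W := by rw [hb]; exact mem_singleton_self b
        exact (mem_sdiff.1 this).2
      · rw [insert_eq, ← hb]; exact sdiff_union_of_subset hWh
    obtain ⟨c, hc1, hc2⟩ : ∃ b, b ∉ W ∧ insert b W = h' := by
      have h1 : (h' \ W).card = 1 := by rw [card_sdiff_of_subset hWh']; omega
      obtain ⟨b, hb⟩ := card_eq_one.1 h1
      refine ⟨b, ?_, ?_⟩
      · have : b ∈ h' \ W := by rw [hb]; exact mem_singleton_self b
        exact (mem_sdiff.1 this).2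
      · rw [insert_eq, ← hb]; exact sdiff_union_of_subset hWh'
    by_cases hbV : b ∈ V2
    · have h1 : h ⊆ V1 ∩ V2 := by
        rw [← hb2]
        refine insert_subset (mem_inter.2 ⟨?_, hbV⟩) hWA
        exact hK1.sub h hh (by rw [← hb2]; exact mem_insert_self _ _)
      exact hK2.lin h ((hag h h1).1 hh) h' hh' W hW hWh hWh'
    · by_cases hcV : c ∈ V1
      · have h1 : h' ⊆ V1 ∩ V2 := by
          rw [← hc2]
          refine insert_subset (mem_inter.2 ⟨hcV, ?_⟩) hWA
          exact hK2.sub h' hh' (by rw [← hc2]; exact mem_insert_self _ _)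
        exact hK1.lin h hh h' ((hag h' h1).2 hh') W hW hWh hWh'
      · exfalso
        refine hno W b c hWA hW ?_ hbV ?_ hcV (by rw [hb2]; exact hh) (by rw [hc2]; exact hh')
        · exact hK1.sub h hh (by rw [← hb2]; exact mem_insert_self _ _)
        · exact hK2.sub h' hh' (by rw [← hc2]; exact mem_insert_self _ _)
  have hlin : ∀ h ∈ H1 ∪ H2, ∀ h' ∈ H1 ∪ H2, ∀ W : Finset U, W.card = t → W ⊆ h → W ⊆ h' →
      h = h' := by
    intro h hh h' hh' W hW hWh hWh'
    rcases mem_union.1 hh with hh | hh <;> rcases mem_union.1 hh' with hh' | hh'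
    · exact hK1.lin h hh h' hh' W hW hWh hWh'
    · exact hlin12 h hh h' hh' W hW hWh hWh'
    · exact (hlin12 h' hh' h hh W hW hWh' hWh).symm
    · exact hK2.lin h hh h' hh' W hW hWh hWh'
  have hcard : ∀ h ∈ H1 ∪ H2, h.card = t + 1 := by
    intro h hh
    rcases mem_union.1 hh with hh | hh
    · exact hK1.card h hh
    · exact hK2.card h hh
  have hpcard : ∀ h ∈ H1 ∪ H2, (pts h).card = t := by
    intro h hh
    rcases mem_union.1 hh with hh | hh
    · exact hK1.pcard h hh
    · exact hK2.pcard h hh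
  refine ⟨⟨?_, hcard, hpcard, hlin, ?_⟩, ⟨subset_union_left, ?_⟩, ⟨subset_union_right, ?_⟩⟩
  · intro h hh
    rcases mem_union.1 hh with hh | hh
    · exact (hK1.sub h hh).trans subset_union_left
    · exact (hK2.sub h hh).trans subset_union_right
  · intro S hS hp
    rcases Nat.lt_or_ge t (pts (S ∩ V1)).card with h1 | h1
    · have h2 := hK1.dim (S ∩ V1) inter_subset_right h1
      have h3 := key1 S hS
      omega
    · rcases Nat.lt_or_ge t (pts (S ∩ V2)).card with h2 | h2
      · have h3 := hK2.dim (S ∩ V2) inter_subset_right h2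
        have h4 := key2 S hS
        omega
      · have h3 := hK1.e_le_one h1
        have h4 := hK2.e_le_one h2
        have h5 := e_union hK1 hK2 hag S
        exact dim_of_e_le_two hlin hcard hpcard hp (by omega)
  · intro S h1 h2
    have h3 := key1 S h2
    rw [inter_eq_right.2 h1] at h3
    rw [← hag1.dl (Subset.refl _)]
    exact h3
  · intro S h1 h2
    have h3 := key2 S h2
    rw [inter_eq_right.2 h1] at h3
    rw [← hag2.dl (Subset.refl _)]
    exact h3

end amalgam

/-- sort preserving permutations -/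
def Srt (g : Equiv.Perm U) : Prop := ∀ u, (g u).isLeft = u.isLeft

theorem Srt.inv {g : Equiv.Perm U} (hg : Srt g) : Srt g⁻¹ := by
  intro u
  have h1 := hg (g⁻¹ u)
  have h2 : g (g⁻¹ u) = u := g.apply_symm_apply u
  rw [h2] at h1
  exact h1.symm

theorem Srt.mul {g h : Equiv.Perm U} (hg : Srt g) (hh : Srt h) : Srt (g * h) := by
  intro u
  rw [Equiv.Perm.mul_apply, hg, hh]

theorem Srt.swap {a b : U} (h : a.isLeft = b.isLeft) : Srt (Equiv.swap a b) := by
  intro u
  rcases eq_or_ne u a with h1 | h1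
  · rw [h1, Equiv.swap_apply_left]; exact h.symm
  · rcases eq_or_ne u b with h2 | h2
    · rw [h2, Equiv.swap_apply_right]; exact h
    · rw [Equiv.swap_apply_of_ne_of_ne h1 h2]

theorem mem_smul_iff (g : Equiv.Perm U) (S : Finset U) (x : U) : g x ∈ g • S ↔ x ∈ S :=
  smul_mem_smul_finset_iff (b := x) g

theorem pts_smul {g : Equiv.Perm U} (hg : Srt g) (S : Finset U) : pts (g • S) = g • pts S := by
  ext x
  obtain ⟨y, rfl⟩ := g.surjective x
  rw [mem_smul_iff]
  unfold pts
  rw [mem_filter, mem_filter, mem_smul_iff, hg]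

theorem filter_smul (g : Equiv.Perm U) (H : Finset (Finset U)) (S : Finset U) :
    (g • H).filter (fun h => h ⊆ g • S) = g • (H.filter (fun h => h ⊆ S)) := by
  ext x
  have hx : g • (g⁻¹ • x) = x := smul_inv_smul g x
  rw [← hx, smul_mem_smul_finset_iff, mem_filter, mem_filter, smul_mem_smul_finset_iff,
    smul_finset_subset_smul_finset_iff]

theorem e_smul (g : Equiv.Perm U) (H : Finset (Finset U)) (S : Finset U) :
    e (g • H) (g • S) = e H S := by
  unfold e
  rw [filter_smul, card_smul_finset]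

theorem dl_smul (g : Equiv.Perm U) (H : Finset (Finset U)) (S : Finset U) :
    dl (g • H) (g • S) = dl H S := by
  unfold dl
  rw [e_smul, card_smul_finset]

theorem Str.smul {H : Finset (Finset U)} {A V : Finset U} (h : Str H A V) (g : Equiv.Perm U) :
    Str (g • H) (g • A) (g • V) := by
  refine ⟨smul_finset_subset_smul_finset_iff.2 h.1, ?_⟩
  intro S h1 h2
  have hS : g • (g⁻¹ • S) = S := smul_inv_smul g S
  rw [← hS] at h1 h2 ⊢
  rw [smul_finset_subset_smul_finset_iff] at h1 h2
  rw [dl_smul, dl_smul]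
  exact h.2 _ h1 h2

theorem IsK.smul {t : ℕ} {V : Finset U} {H : Finset (Finset U)} (hK : IsK t V H)
    {g : Equiv.Perm U} (hg : Srt g) : IsK t (g • V) (g • H) := by
  have hx : ∀ S : Finset U, g • (g⁻¹ • S) = S := fun S => smul_inv_smul g S
  refine ⟨?_, ?_, ?_, ?_, ?_⟩
  · intro h hh
    rw [← hx h] at hh ⊢
    rw [smul_mem_smul_finset_iff] at hh
    rw [smul_finset_subset_smul_finset_iff]
    exact hK.sub _ hh
  · intro h hh
    rw [← hx h] at hh ⊢
    rw [smul_mem_smul_finset_iff] at hh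
    rw [card_smul_finset]
    exact hK.card _ hh
  · intro h hh
    rw [← hx h] at hh ⊢
    rw [smul_mem_smul_finset_iff] at hh
    rw [pts_smul hg, card_smul_finset]
    exact hK.pcard _ hh
  · intro h hh h' hh' W hW hWh hWh'
    rw [← hx h] at hh hWh ⊢
    rw [← hx h'] at hh' hWh' ⊢
    rw [← hx W] at hW hWh hWh'
    rw [smul_mem_smul_finset_iff] at hh hh'
    rw [card_smul_finset] at hW
    rw [smul_finset_subset_smul_finset_iff] at hWh hWh'
    rw [hK.lin _ hh _ hh' _ hW hWh hWh']
  · intro S hS hp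
    rw [← hx S] at hS hp ⊢
    rw [smul_finset_subset_smul_finset_iff] at hS
    rw [pts_smul hg, card_smul_finset] at hp
    rw [dl_smul]
    exact hK.dim _ hS hp

theorem exists_fresh (b : Bool) (Z : Finset U) : ∃ y : U, y ∉ Z ∧ y.isLeft = b := by
  cases b with
  | true =>
    obtain ⟨n, hn⟩ := Infinite.exists_notMem_finset Z.toLeft
    exact ⟨Sum.inl n, by simpa using hn, rfl⟩
  | false =>
    obtain ⟨n, hn⟩ := Infinite.exists_notMem_finset Z.toRight
    exact ⟨Sum.inr n, by simpa using hn, rfl⟩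

theorem exists_move (Y Z : Finset U) (F : Finset U) : Disjoint F Y →
    ∃ π : Equiv.Perm U, Srt π ∧ (∀ y ∈ Y, π y = y) ∧ ∀ x ∈ F, π x ∉ Z := by
  induction F using Finset.induction_on with
  | empty =>
    intro _
    exact ⟨1, fun u => rfl, fun y _ => rfl, fun x hx => absurd hx (notMem_empty x)⟩
  | insert x F hx ih =>
    intro hd
    rw [disjoint_insert_left] at hd
    obtain ⟨π, h1, h2, h3⟩ := ih hd.2
    obtain ⟨y, hy1, hy2⟩ := exists_fresh x.isLeft (Z ∪ Y ∪ π • F)
    simp only [mem_union, not_or] at hy1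
    refine ⟨Equiv.swap (π x) y * π, (Srt.swap (by rw [h1, hy2])).mul h1, ?_, ?_⟩
    · intro z hz
      rw [Equiv.Perm.mul_apply, h2 z hz, Equiv.swap_apply_of_ne_of_ne]
      · intro h4
        apply hd.1
        have : π z = π x := by rw [h2 z hz]; exact h4
        rw [← π.injective this]; exact hz
      · intro h4; rw [h4] at hz; exact hy1.1.2 hz
    · intro z hz
      rw [Equiv.Perm.mul_apply]
      rcases mem_insert.1 hz with hz | hz
      · rw [hz, Equiv.swap_apply_left]; exact hy1.1.1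
      · rw [Equiv.swap_apply_of_ne_of_ne]
        · exact h3 z hz
        · intro h4
          apply hx
          rw [← π.injective h4]; exact hz
        · intro h4
          apply hy1.2
          rw [← h4, mem_smul_iff]; exact hz

/-- an element outside a strong set lies on at most one edge over it -/
theorem Str.uniq {H : Finset (Finset U)} {A V : Finset U} (h : Str H A V) {b : U}
    (hb : b ∈ V) (hbA : b ∉ A) {h1 h2 : Finset U} (hh1 : h1 ∈ H) (hh2 : h2 ∈ H)
    (hs1 : h1 ⊆ insert b A) (hs2 : h2 ⊆ insert b A) (hb1 : b ∈ h1) (hb2 : b ∈ h2) : h1 = h2 := by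
  by_contra hne
  have k1 := h.2 (insert b A) (subset_insert _ _) (insert_subset hb h.1)
  unfold dl at k1
  rw [card_insert_of_notMem hbA] at k1
  have k2 : e H A + 2 ≤ e H (insert b A) := by
    unfold e
    have k3 : insert h1 (insert h2 (H.filter (fun h => h ⊆ A))) ⊆
        H.filter (fun h => h ⊆ insert b A) := by
      intro x hx
      rw [mem_insert, mem_insert] at hx
      rw [mem_filter]
      rcases hx with rfl | rfl | hx
      · exact ⟨hh1, hs1⟩
      · exact ⟨hh2, hs2⟩
      · rw [mem_filter] at hx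
        exact ⟨hx.1, hx.2.trans (subset_insert _ _)⟩
    have k4 := card_le_card k3
    have k5 : h2 ∉ H.filter (fun h => h ⊆ A) := by
      rw [mem_filter]; rintro ⟨_, h5⟩; exact hbA (h5 hb2)
    have k6 : h1 ∉ insert h2 (H.filter (fun h => h ⊆ A)) := by
      rw [mem_insert, mem_filter]
      rintro (h5 | ⟨_, h5⟩)
      · exact hne h5
      · exact hbA (h5 hb1)
    rw [card_insert_of_notMem k6, card_insert_of_notMem k5] at k4
    omega
  omega

theorem Str.insert {H : Finset (Finset U)} {A V : Finset U} (h : Str H A V) {b : U}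
    (hb : b ∈ V) (hbA : b ∉ A) {h1 : Finset U} (hh1 : h1 ∈ H)
    (hs1 : h1 ⊆ insert b A) (hb1 : b ∈ h1) : Str H (insert b A) V := by
  refine ⟨insert_subset hb h.1, ?_⟩
  intro S hS1 hS2
  have k1 := h.2 S ((subset_insert _ _).trans hS1) hS2
  have k2 : e H A + 1 ≤ e H (Insert.insert b A) := by
    unfold e
    have k3 : Insert.insert h1 (H.filter (fun h => h ⊆ A)) ⊆
        H.filter (fun h => h ⊆ Insert.insert b A) := by
      intro x hx
      rw [mem_insert] at hx
      rw [mem_filter]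
      rcases hx with rfl | hx
      · exact ⟨hh1, hs1⟩
      · rw [mem_filter] at hx
        exact ⟨hx.1, hx.2.trans (subset_insert _ _)⟩
    have k4 := card_le_card k3
    have k5 : h1 ∉ H.filter (fun h => h ⊆ A) := by
      rw [mem_filter]; rintro ⟨_, h5⟩; exact hbA (h5 hb1)
    rw [card_insert_of_notMem k5] at k4
    omega
  have k3 : dl H (Insert.insert b A) ≤ dl H A := by
    unfold dl
    rw [card_insert_of_notMem hbA]
    omega
  omega

/-- extension lemma -/
theorem ext_lemma {t : ℕ} {V : Finset U} {H : Finset (Finset U)} (hK : IsK t V H) :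
    ∀ (n : ℕ) (A : Finset U) (g : Equiv.Perm U), (V \ A).card = n → Srt g → Str H A V →
      Str H (g • A) V → (∀ h, h ⊆ A → (h ∈ H ↔ g • h ∈ H)) →
      ∃ (V' : Finset U) (H' : Finset (Finset U)) (g' : Equiv.Perm U),
        IsK t V' H' ∧ Str H' V V' ∧ Agr H H' V ∧ Srt g' ∧ (∀ u ∈ A, g' u = g u) ∧
        Str H' (g' • V) V' ∧ (∀ h, h ⊆ V → (h ∈ H' ↔ g' • h ∈ H')) := by
  intro n
  induction n with
  | zero =>
    intro A g hn hg hA hgA hiso
    have hAV : A = V := by
      refine Subset.antisymm hA.1 ?_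
      rw [← sdiff_eq_empty_iff_subset]
      exact card_eq_zero.1 hn
    subst hAV
    refine ⟨A, H, g, hK, Str.refl _ _, fun h _ => Iff.rfl, hg, fun _ _ => rfl, hgA, hiso⟩
  | succ n ih =>
    intro A g hn hg hA hgA hiso
    by_cases hcl : ∃ (W : Finset U) (b c : U), W ⊆ A ∧ W.card = t ∧ b ∈ V ∧ b ∉ A ∧ c ∈ V ∧
        c ∉ g • A ∧ insert b W ∈ H ∧ insert c (g • W) ∈ H
    · obtain ⟨W, b, c, hWA, hW, hbV, hbA, hcV, hcA, hb, hc⟩ := hcl
      have hbW : b ∉ W := fun h => hbA (hWA h)
      have hcW : c ∉ g • W := fun h => hcA (smul_finset_subset_smul_finset_iff.2 hWA h)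
      have hsort : b.isLeft = c.isLeft := by
        have h1 := hK.pcard _ hb
        have h2 := hK.pcard _ hc
        have h3 : pts (insert b W) = if b.isLeft = true then insert b (pts W) else pts W :=
          filter_insert _ _ _
        have h4 : pts (insert c (g • W)) =
            if c.isLeft = true then insert c (pts (g • W)) else pts (g • W) :=
          filter_insert _ _ _
        have h5 : b ∉ pts W := fun h => hbW (pts_sub _ h)
        have h6 : c ∉ pts (g • W) := fun h => hcW (pts_sub _ h)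
        rw [h3] at h1
        rw [h4] at h2
        rw [pts_smul hg] at h2 h6
        by_cases h7 : b.isLeft = true <;> by_cases h8 : c.isLeft = true
        · rw [h7, h8]
        · rw [if_pos h7, card_insert_of_notMem h5] at h1
          rw [if_neg h8, card_smul_finset] at h2
          omega
        · rw [if_neg h7] at h1
          rw [if_pos h8, card_insert_of_notMem h6, card_smul_finset] at h2
          omega
        · rw [Bool.not_eq_true] at h7 h8
          rw [h7, h8]
      let g1 : Equiv.Perm U := Equiv.swap (g b) c * g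
      have hg1 : Srt g1 := (Srt.swap (by rw [hg, hsort])).mul hg
      have hg1A : ∀ u ∈ A, g1 u = g u := by
        intro u hu
        show Equiv.swap (g b) c (g u) = g u
        rw [Equiv.swap_apply_of_ne_of_ne]
        · intro h; exact hbA (g.injective h ▸ hu)
        · intro h; apply hcA; rw [← h, mem_smul_iff]; exact hu
      have hg1b : g1 b = c := by
        show Equiv.swap (g b) c (g b) = c
        rw [Equiv.swap_apply_left]
      have hg1s : ∀ h, h ⊆ A → g1 • h = g • h := by
        intro h hh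
        apply image_congr
        intro x hx
        exact hg1A x (hh hx)
      have hg1i : g1 • (insert b A) = insert c (g • A) := by
        have : g1 • (insert b A) = insert (g1 b) (g1 • A) := image_insert _ _ _
        rw [this, hg1b, hg1s A (Subset.refl _)]
      have hA1 : Str H (insert b A) V :=
        hA.insert hbV hbA hb (insert_subset_insert _ hWA) (mem_insert_self _ _)
      have hA1' : Str H (g1 • (insert b A)) V := by
        rw [hg1i]
        exact hgA.insert hcV hcA hc
          (insert_subset_insert _ (smul_finset_subset_smul_finset_iff.2 hWA)) (mem_insert_self _ _)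
      have hg1W : g1 • (insert b W) = insert c (g • W) := by
        have : g1 • (insert b W) = insert (g1 b) (g1 • W) := image_insert _ _ _
        rw [this, hg1b, hg1s W hWA]
      have hiso1 : ∀ h, h ⊆ insert b A → (h ∈ H ↔ g1 • h ∈ H) := by
        intro h hh
        by_cases hbh : b ∈ h
        · constructor
          · intro hhH
            have h1 := hA.uniq hbV hbA hhH hb hh (insert_subset_insert _ hWA) hbh
              (mem_insert_self _ _)
            rw [h1, hg1W]; exact hc
          · intro hhH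
            have h2 : g1 • h ⊆ insert c (g • A) := by
              rw [← hg1i]; exact smul_finset_subset_smul_finset_iff.2 hh
            have h3 : c ∈ g1 • h := by rw [← hg1b, mem_smul_iff]; exact hbh
            have h1 := hgA.uniq hcV hcA hhH hc h2
              (insert_subset_insert _ (smul_finset_subset_smul_finset_iff.2 hWA)) h3
              (mem_insert_self _ _)
            rw [← hg1W] at h1
            have h4 : h = insert b W := smul_left_cancel g1 h1
            rw [h4]; exact hb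
        · have h1 : h ⊆ A := by
            intro x hx
            rcases mem_insert.1 (hh hx) with h2 | h2
            · rw [h2] at hx; exact absurd hx hbh
            · exact h2
          rw [hg1s h h1]
          exact hiso h h1
      have hn1 : (V \ insert b A).card = n := by
        have h1 : V \ insert b A = (V \ A).erase b := by
          ext x; simp only [mem_sdiff, mem_insert, mem_erase, not_or]; tauto
        rw [h1, card_erase_of_mem (mem_sdiff.2 ⟨hbV, hbA⟩), hn]; rfl
      obtain ⟨V', H', g', r1, r2, r3, r4, r5, r6, r7⟩ :=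
        ih (insert b A) g1 hn1 hg1 hA1 hA1' hiso1
      refine ⟨V', H', g', r1, r2, r3, r4, ?_, r6, r7⟩
      intro u hu
      rw [r5 u (mem_insert_of_mem hu), hg1A u hu]
    · -- free amalgamation
      obtain ⟨π, p1, p2, p3⟩ := exists_move (g • A) V (g • (V \ A)) (by
        rw [disjoint_left]
        intro x hx hx'
        obtain ⟨y, rfl⟩ := g.surjective x
        rw [mem_smul_iff] at hx hx'
        exact (mem_sdiff.1 hx).2 hx')
      let g1 : Equiv.Perm U := π * g
      have hg1 : Srt g1 := p1.mul hg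
      have hg1A : ∀ u ∈ A, g1 u = g u := by
        intro u hu
        show π (g u) = g u
        exact p2 _ (by rw [mem_smul_iff]; exact hu)
      have hg1s : ∀ h, h ⊆ A → g1 • h = g • h := by
        intro h hh
        apply image_congr
        intro x hx
        exact hg1A x (hh hx)
      have hg1n : ∀ u ∈ V, u ∉ A → g1 u ∉ V := by
        intro u hu huA
        exact p3 (g u) (by rw [mem_smul_iff]; exact mem_sdiff.2 ⟨hu, huA⟩)
      have hint : V ∩ g1 • V = g • A := by
        ext x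
        obtain ⟨y, rfl⟩ := g1.surjective x
        rw [mem_inter, mem_smul_iff]
        constructor
        · rintro ⟨h1, h2⟩
          by_cases hy : y ∈ A
          · rw [hg1A y hy, mem_smul_iff]; exact hy
          · exact absurd h1 (hg1n y h2 hy)
        · intro h1
          have h2 : g1 y ∈ g1 • A := by rw [hg1s A (Subset.refl _)]; exact h1
          rw [mem_smul_iff] at h2
          exact ⟨hgA.1 h1, hA.1 h2⟩
      have hK2 : IsK t (g1 • V) (g1 • H) := hK.smul hg1
      have hag : Agr H (g1 • H) (V ∩ g1 • V) := by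
        rw [hint]
        intro h hh
        have hx : g1 • (g1⁻¹ • h) = h := smul_inv_smul g1 h
        have h1 : g1⁻¹ • h ⊆ A := by
          rw [← hg1s A (Subset.refl _), ← hx, smul_finset_subset_smul_finset_iff] at hh
          exact hh
        rw [← hx, smul_mem_smul_finset_iff, hiso _ h1, hg1s _ h1]
      have hs1 : Str H (V ∩ g1 • V) V := by rw [hint]; exact hgA
      have hs2 : Str (g1 • H) (V ∩ g1 • V) (g1 • V) := by
        rw [hint, ← hg1s A (Subset.refl _)]; exact hA.smul g1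
      have hno : ∀ (W : Finset U) (b c : U), W ⊆ V ∩ g1 • V → W.card = t → b ∈ V →
          b ∉ g1 • V → c ∈ g1 • V → c ∉ V → insert b W ∈ H → insert c W ∈ g1 • H → False := by
        intro W b c hWA hW hbV hbV' hcV hcV' hb hc
        rw [hint] at hWA
        apply hcl
        have hx : g1 • (g1⁻¹ • W) = W := smul_inv_smul g1 W
        have h1 : g1⁻¹ • W ⊆ A := by
          rw [← hg1s A (Subset.refl _), ← hx, smul_finset_subset_smul_finset_iff] at hWA
          exact hWA
        have h2 : g • (g1⁻¹ • W) = W := by rw [← hg1s _ h1]; exact hx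
        have hgc : g1 (g1⁻¹ c) = c := g1.apply_symm_apply c
        refine ⟨g1⁻¹ • W, g1⁻¹ c, b, h1, ?_, ?_, ?_, hbV, ?_, ?_, ?_⟩
        · rw [card_smul_finset]; exact hW
        · rw [← hgc, mem_smul_iff] at hcV; exact hcV
        · intro h3
          apply hcV'
          rw [← hgc, hg1A _ h3]
          apply hgA.1
          rw [mem_smul_iff]; exact h3
        · intro h3
          apply hbV'
          have h4 := smul_finset_subset_smul_finset_iff (a := g1) |>.2 hA.1
          rw [hg1s A (Subset.refl _)] at h4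
          exact h4 h3
        · have h3 : insert c W = g1 • (insert (g1⁻¹ c) (g1⁻¹ • W)) := by
            have : g1 • (insert (g1⁻¹ c) (g1⁻¹ • W)) = insert (g1 (g1⁻¹ c)) (g1 • (g1⁻¹ • W)) :=
              image_insert _ _ _
            rw [this, hgc, hx]
          rw [h3, smul_mem_smul_finset_iff] at hc
          exact hc
        · rw [h2]; exact hb
      obtain ⟨q1, q2, q3⟩ := free_amalgam hK hK2 hag hs1 hs2 hno
      refine ⟨V ∪ g1 • V, H ∪ g1 • H, g1, q1, q2, agr_left hK2 hag, hg1, hg1A, q3, ?_⟩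
      intro h hh
      rw [← agr_left hK2 hag h hh,
        ← agr_right hK hag (g1 • h) (smul_finset_subset_smul_finset_iff.2 hh),
        smul_mem_smul_finset_iff]

theorem isK_empty (t : ℕ) (V : Finset U) : IsK t V ∅ := by
  refine ⟨?_, ?_, ?_, ?_, ?_⟩
  · intro h hh; exact absurd hh (notMem_empty h)
  · intro h hh; exact absurd hh (notMem_empty h)
  · intro h hh; exact absurd hh (notMem_empty h)
  · intro h hh; exact absurd hh (notMem_empty h)
  · intro S hS hp
    have h1 : (pts S).card ≤ S.card := card_le_card (pts_sub S)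
    have h2 : e ∅ S = 0 := by unfold e; rw [filter_empty]; rfl
    unfold dl
    omega

theorem IsK.str_empty {t : ℕ} {V : Finset U} {H : Finset (Finset U)} (hK : IsK t V H) :
    Str H ∅ V := by
  refine ⟨empty_subset _, ?_⟩
  intro S _ hS
  have h0 : dl H ∅ ≤ 0 := by
    unfold dl
    rw [card_empty]
    omega
  have h1 : 0 ≤ dl H S := by
    rcases Nat.lt_or_ge t (pts S).card with h2 | h2
    · have := hK.dim S hS h2
      omega
    · have h3 := hK.e_le_one h2
      unfold dl
      rcases Nat.eq_zero_or_pos (e H S) with h4 | h4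
      · omega
      · have h5 : (H.filter (fun h => h ⊆ S)).Nonempty := by
          rw [← card_pos]; exact h4
        obtain ⟨h, hh⟩ := h5
        rw [mem_filter] at hh
        have h6 := card_le_card hh.2
        rw [hK.card h hh.1] at h6
        omega
  omega

theorem IsK.add_set {t : ℕ} {V : Finset U} {H : Finset (Finset U)} (hK : IsK t V H)
    (F : Finset U) : IsK t (V ∪ F) H ∧ Str H V (V ∪ F) := by
  have hd : V ∩ (F \ V) = ∅ := by
    ext x; simp only [mem_inter, mem_sdiff, notMem_empty, iff_false]; tauto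
  have hu : V ∪ (F \ V) = V ∪ F := union_sdiff_self_eq_union
  have h1 : Agr H ∅ (V ∩ (F \ V)) := by
    rw [hd]
    intro h hh
    constructor
    · intro h1
      have h2 := hK.card h h1
      rw [subset_empty.1 hh, card_empty] at h2
      omega
    · intro h1; exact absurd h1 (notMem_empty h)
  obtain ⟨q1, q2, _⟩ := free_amalgam hK (isK_empty t (F \ V)) h1
    (by rw [hd]; exact hK.str_empty) (by rw [hd]; exact (isK_empty t (F \ V)).str_empty)
    (by
      intro W b c _ _ _ _ _ _ _ h2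
      exact notMem_empty _ h2)
  rw [hu, union_empty] at q1 q2
  exact ⟨q1, q2⟩

theorem IsK.add_edge {t : ℕ} {V : Finset U} {H : Finset (Finset U)} (hK : IsK t V H)
    {W : Finset U} (hWV : W ⊆ V) (hW : W.card = t)
    (hp : (pts W).card = t ∨ (pts W).card + 1 = t) (hno : ∀ h ∈ H, ¬ W ⊆ h) :
    ∃ v, IsK t (insert v V) (insert (insert v W) H) ∧
      Str (insert (insert v W) H) V (insert v V) ∧ Agr H (insert (insert v W) H) V := by
  -- choose the new vertex
  obtain ⟨v, hvV, hvp⟩ : ∃ v : U, v ∉ V ∧ (pts (insert v W)).card = t := by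
    rcases hp with hp | hp
    · obtain ⟨v, h1, h2⟩ := exists_fresh false V
      refine ⟨v, h1, ?_⟩
      have h3 : pts (insert v W) = if v.isLeft = true then insert v (pts W) else pts W :=
        filter_insert _ _ _
      rw [h3, h2, if_neg (by simp)]
      exact hp
    · obtain ⟨v, h1, h2⟩ := exists_fresh true V
      refine ⟨v, h1, ?_⟩
      have h3 : pts (insert v W) = if v.isLeft = true then insert v (pts W) else pts W :=
        filter_insert _ _ _
      rw [h3, h2, if_pos rfl, card_insert_of_notMem (fun h => h1 (hWV (pts_sub _ h)))]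
      exact hp
  have hvW : v ∉ W := fun h => hvV (hWV h)
  have hagr : Agr H (insert (insert v W) H) V := by
    intro h hh
    constructor
    · intro h1; exact mem_insert_of_mem h1
    · intro h1
      rcases mem_insert.1 h1 with h1 | h1
      · exfalso
        apply hvV
        apply hh
        rw [h1]; exact mem_insert_self _ _
      · exact h1
  have hlinX : ∀ h ∈ H, ∀ W' : Finset U, W'.card = t → W' ⊆ h → W' ⊆ insert v W → False := by
    intro h hh W' hW' h1 h2
    have h3 : v ∉ W' := fun h4 => hvV (hK.sub h hh (h1 h4))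
    have h4 : W' ⊆ W := by
      intro x hx
      rcases mem_insert.1 (h2 hx) with h5 | h5
      · rw [h5] at hx; exact absurd hx h3
      · exact h5
    have h5 : W' = W := eq_of_subset_of_card_le h4 (by rw [hW, hW'])
    rw [h5] at h1
    exact hno h hh h1
  have hlin : ∀ h ∈ insert (insert v W) H, ∀ h' ∈ insert (insert v W) H, ∀ W' : Finset U,
      W'.card = t → W' ⊆ h → W' ⊆ h' → h = h' := by
    intro h hh h' hh' W' hW' h1 h2
    rcases mem_insert.1 hh with hh | hh <;> rcases mem_insert.1 hh' with hh' | hh'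
    · rw [hh, hh']
    · rw [hh] at h1; exact (hlinX h' hh' W' hW' h2 h1).elim
    · rw [hh'] at h2; exact (hlinX h hh W' hW' h1 h2).elim
    · exact hK.lin h hh h' hh' W' hW' h1 h2
  have hcard : ∀ h ∈ insert (insert v W) H, h.card = t + 1 := by
    intro h hh
    rcases mem_insert.1 hh with hh | hh
    · rw [hh, card_insert_of_notMem hvW, hW]
    · exact hK.card h hh
  have hpcard : ∀ h ∈ insert (insert v W) H, (pts h).card = t := by
    intro h hh
    rcases mem_insert.1 hh with hh | hh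
    · rw [hh]; exact hvp
    · exact hK.pcard h hh
  have he : ∀ S, S ⊆ insert v V → e (insert (insert v W) H) S ≤ e H (S.erase v) + 1 := by
    intro S hS
    unfold e
    have h1 : (insert (insert v W) H).filter (fun h => h ⊆ S) ⊆
        insert (insert v W) (H.filter (fun h => h ⊆ S.erase v)) := by
      intro x hx
      rw [mem_filter] at hx
      rw [mem_insert, mem_filter]
      rcases mem_insert.1 hx.1 with h2 | h2
      · exact Or.inl h2
      · right
        refine ⟨h2, ?_⟩
        intro y hy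
        rw [mem_erase]
        refine ⟨?_, hx.2 hy⟩
        intro h3
        rw [h3] at hy
        exact hvV (hK.sub x h2 hy)
    exact (card_le_card h1).trans (card_insert_le _ _)
  have hdl : ∀ S, S ⊆ insert v V → dl H (S.erase v) ≤ dl (insert (insert v W) H) S := by
    intro S hS
    by_cases hv : v ∈ S
    · have h1 := he S hS
      have h2 := card_erase_add_one hv
      unfold dl
      omega
    · have h1 : S ⊆ V := by
        intro x hx
        rcases mem_insert.1 (hS hx) with h5 | h5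
        · rw [h5] at hx; exact absurd hx hv
        · exact h5
      rw [erase_eq_of_notMem hv, hagr.dl h1]
  refine ⟨v, ⟨?_, hcard, hpcard, hlin, ?_⟩, ⟨subset_insert _ _, ?_⟩, hagr⟩
  · intro h hh
    rcases mem_insert.1 hh with hh | hh
    · rw [hh]; exact insert_subset_insert _ hWV
    · exact (hK.sub h hh).trans (subset_insert _ _)
  · intro S hS hpS
    have hE : S.erase v ⊆ V := by
      intro x hx
      rw [mem_erase] at hx
      rcases mem_insert.1 (hS hx.2) with h5 | h5
      · exact absurd h5 hx.1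
      · exact h5
    rcases Nat.lt_or_ge t (pts (S.erase v)).card with h1 | h1
    · have h2 := hK.dim (S.erase v) hE h1
      have h3 := hdl S hS
      omega
    · have h2 := hK.e_le_one h1
      have h3 := he S hS
      exact dim_of_e_le_two hlin hcard hpcard hpS (by omega)
  · intro S h1 h2
    have h3 := hdl S h2
    have h4 : S.erase v = V := by
      apply Subset.antisymm
      · intro x hx
        rw [mem_erase] at hx
        rcases mem_insert.1 (h2 hx.2) with h5 | h5
        · exact absurd h5 hx.1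
        · exact h5
      · intro x hx
        rw [mem_erase]
        exact ⟨fun h5 => hvV (h5 ▸ hx), h1 hx⟩
    rw [h4] at h3
    rw [← hagr.dl (Subset.refl _)]
    exact h3

/-- the set of points listed by an embedding -/
def ptset {t : ℕ} (a : Fin (t + 1) ↪ ℕ) : Finset U :=
  univ.map (a.trans ⟨Sum.inl, Sum.inl_injective⟩)

theorem mem_ptset {t : ℕ} (a : Fin (t + 1) ↪ ℕ) (x : U) : x ∈ ptset a ↔ ∃ i, Sum.inl (a i) = x := by
  unfold ptset
  simp

theorem card_ptset {t : ℕ} (a : Fin (t + 1) ↪ ℕ) : (ptset a).card = t + 1 := by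
  unfold ptset
  rw [card_map, card_univ, Fintype.card_fin]

theorem pts_ptset {t : ℕ} (a : Fin (t + 1) ↪ ℕ) : pts (ptset a) = ptset a := by
  unfold pts
  rw [filter_true_of_mem]
  intro x hx
  rw [mem_ptset] at hx
  obtain ⟨i, rfl⟩ := hx
  rfl

theorem IsK.str_ptset {t : ℕ} {V : Finset U} {H : Finset (Finset U)} (hK : IsK t V H)
    (a : Fin (t + 1) ↪ ℕ) (ha : ptset a ⊆ V) : Str H (ptset a) V := by
  refine ⟨ha, ?_⟩
  intro S h1 h2
  have h3 := card_le_card (pts_mono h1)
  rw [pts_ptset, card_ptset] at h3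
  have h4 := hK.dim S h2 h3
  have h5 : dl H (ptset a) ≤ (t : ℤ) + 1 := by
    unfold dl
    rw [card_ptset]
    push_cast
    omega
  omega

theorem IsK.no_edge_ptset {t : ℕ} {V : Finset U} {H : Finset (Finset U)} (hK : IsK t V H)
    (a : Fin (t + 1) ↪ ℕ) {h : Finset U} (hh : h ⊆ ptset a) : h ∉ H := by
  intro h1
  have h2 := card_ge_of_edge (hK.card h h1) (hK.pcard h h1) hh
  rw [pts_ptset] at h2
  omega

/-- pairs of tuples -/
abbrev J (t : ℕ) := (Fin (t + 1) ↪ ℕ) × (Fin (t + 1) ↪ ℕ)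

/-- forcing conditions -/
structure Cond (t : ℕ) where
  V : Finset U
  H : Finset (Finset U)
  D : J t → Finset U
  g : J t → Equiv.Perm U
  isK : IsK t V H
  srt : ∀ j, Srt (g j)
  strD : ∀ j, Str H (D j) V
  strR : ∀ j, Str H (g j • D j) V
  iso : ∀ j h, h ⊆ D j → (h ∈ H ↔ g j • h ∈ H)
  act : ∀ j, D j = ∅ ∨ ∀ i, Sum.inl (j.1 i) ∈ D j ∧ g j (Sum.inl (j.1 i)) = Sum.inl (j.2 i)

instance instPreorderCond (t : ℕ) : Preorder (Cond t) where
  le p q := Agr p.H q.H p.V ∧ Str q.H p.V q.V ∧ ∀ j, p.D j ⊆ q.D j ∧ ∀ u ∈ p.D j, q.g j u = p.g j u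
  le_refl p := ⟨fun _ _ => Iff.rfl, Str.refl _ _, fun _ => ⟨Subset.refl _, fun _ _ => rfl⟩⟩
  le_trans p q r := by
    rintro ⟨h1, h2, h3⟩ ⟨k1, k2, k3⟩
    refine ⟨?_, (k1.str h2).trans k2, ?_⟩
    · intro h hh
      rw [h1 h hh, k1 h (hh.trans h2.1)]
    · intro j
      refine ⟨(h3 j).1.trans (k3 j).1, ?_⟩
      intro u hu
      rw [(k3 j).2 u ((h3 j).1 hu), (h3 j).2 u hu]

/-- enlarge the structure -/
theorem Cond.grow {t : ℕ} (p : Cond t) {V' : Finset U} {H' : Finset (Finset U)}
    (hK : IsK t V' H') (hS : Str H' p.V V') (hA : Agr p.H H' p.V) :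
    ∃ q : Cond t, p ≤ q ∧ q.V = V' ∧ q.H = H' ∧ q.D = p.D ∧ q.g = p.g := by
  refine ⟨⟨V', H', p.D, p.g, hK, p.srt, fun j => (hA.str (p.strD j)).trans hS,
    fun j => (hA.str (p.strR j)).trans hS, ?_, p.act⟩, ⟨hA, hS, fun j => ⟨Subset.refl _,
    fun _ _ => rfl⟩⟩, rfl, rfl, rfl, rfl⟩
  intro j h hh
  rw [← hA h (hh.trans (p.strD j).1), ← hA (p.g j • h)
    ((smul_finset_subset_smul_finset_iff.2 hh).trans (p.strR j).1)]
  exact p.iso j h hh

/-- enlarge one partial automorphism -/
theorem Cond.upd {t : ℕ} (p : Cond t) (j : J t) {D' : Finset U} {g' : Equiv.Perm U}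
    (hg' : Srt g') (h1 : Str p.H D' p.V) (h2 : Str p.H (g' • D') p.V)
    (h3 : ∀ h, h ⊆ D' → (h ∈ p.H ↔ g' • h ∈ p.H))
    (h4 : ∀ i, Sum.inl (j.1 i) ∈ D' ∧ g' (Sum.inl (j.1 i)) = Sum.inl (j.2 i))
    (h5 : p.D j ⊆ D') (h6 : ∀ u ∈ p.D j, g' u = p.g j u) :
    ∃ q : Cond t, p ≤ q ∧ q.V = p.V ∧ q.H = p.H ∧ q.D j = D' ∧ q.g j = g' := by
  classical
  refine ⟨⟨p.V, p.H, Function.update p.D j D', Function.update p.g j g', p.isK, ?_, ?_, ?_, ?_,
    ?_⟩, ⟨fun _ _ => Iff.rfl, Str.refl _ _, ?_⟩, rfl, rfl, ?_, ?_⟩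
  · intro k
    by_cases hk : k = j
    · subst hk; rw [Function.update_self]; exact hg'
    · rw [Function.update_of_ne hk]; exact p.srt k
  · intro k
    by_cases hk : k = j
    · subst hk; rw [Function.update_self]; exact h1
    · rw [Function.update_of_ne hk]; exact p.strD k
  · intro k
    by_cases hk : k = j
    · subst hk; rw [Function.update_self, Function.update_self]; exact h2
    · rw [Function.update_of_ne hk, Function.update_of_ne hk]; exact p.strR k
  · intro k
    by_cases hk : k = j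
    · subst hk; rw [Function.update_self, Function.update_self]; exact h3
    · rw [Function.update_of_ne hk, Function.update_of_ne hk]; exact p.iso k
  · intro k
    by_cases hk : k = j
    · subst hk; rw [Function.update_self, Function.update_self]; exact Or.inr h4
    · rw [Function.update_of_ne hk, Function.update_of_ne hk]; exact p.act k
  · intro k
    by_cases hk : k = j
    · subst hk
      show p.D k ⊆ Function.update p.D k D' k ∧ ∀ u ∈ p.D k, Function.update p.g k g' k u = _
      rw [Function.update_self, Function.update_self]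
      exact ⟨h5, h6⟩
    · show p.D k ⊆ Function.update p.D j D' k ∧ ∀ u ∈ p.D k, Function.update p.g j g' k u = _
      rw [Function.update_of_ne hk, Function.update_of_ne hk]
      exact ⟨Subset.refl _, fun _ _ => rfl⟩
  · exact Function.update_self _ _ _
  · exact Function.update_self _ _ _

theorem dense1 {t : ℕ} (p : Cond t) (F : Finset U) : ∃ q, p ≤ q ∧ F ⊆ q.V := by
  obtain ⟨h1, h2⟩ := p.isK.add_set F
  obtain ⟨q, h3, h4, _, _, _⟩ := p.grow h1 h2 (fun _ _ => Iff.rfl)
  exact ⟨q, h3, by rw [h4]; exact subset_union_right⟩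

theorem dense2 {t : ℕ} (p : Cond t) (W : Finset U) (hW : W.card = t)
    (hp : (pts W).card = t ∨ (pts W).card + 1 = t) : ∃ q, p ≤ q ∧ ∃ h ∈ q.H, W ⊆ h := by
  obtain ⟨p1, h1, h2⟩ := dense1 p W
  by_cases h3 : ∃ h ∈ p1.H, W ⊆ h
  · exact ⟨p1, h1, h3⟩
  · push Not at h3
    obtain ⟨v, h4, h5, h6⟩ := p1.isK.add_edge h2 hW hp h3
    obtain ⟨q, k1, k2, k3, _, _⟩ := p1.grow h4 h5 h6
    refine ⟨q, h1.trans k1, insert v W, ?_, subset_insert _ _⟩
    rw [k3]; exact mem_insert_self _ _

/-- activate index `j` -/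
theorem activate {t : ℕ} (p : Cond t) (j : J t) (F : Finset U) : ∃ q, p ≤ q ∧ F ⊆ q.V ∧
    ∀ i, Sum.inl (j.1 i) ∈ q.D j ∧ q.g j (Sum.inl (j.1 i)) = Sum.inl (j.2 i) := by
  obtain ⟨p1, h1, h2⟩ := dense1 p (F ∪ ptset j.1 ∪ ptset j.2)
  have hF : F ⊆ p1.V := (subset_union_left.trans subset_union_left).trans h2
  rcases p1.act j with h3 | h3
  · obtain ⟨σ, hσ⟩ : ∃ σ : Equiv.Perm ℕ, ∀ i, σ (j.1 i) = j.2 i := by
      have h4 := Equiv.Perm.isMultiplyPretransitive ℕ (t + 1)
      obtain ⟨σ, hσ⟩ := h4.exists_smul_eq j.1 j.2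
      refine ⟨σ, fun i => ?_⟩
      have := DFunLike.congr_fun hσ i
      exact this
    let g0 : Equiv.Perm U := Equiv.sumCongr σ (Equiv.refl ℕ)
    have hg0 : Srt g0 := by
      intro u
      cases u <;> rfl
    have hg0a : ∀ i, g0 (Sum.inl (j.1 i)) = Sum.inl (j.2 i) := by
      intro i
      show Sum.inl (σ (j.1 i)) = _
      rw [hσ]
    have hg0s : g0 • ptset j.1 = ptset j.2 := by
      ext x
      rw [mem_ptset]
      constructor
      · intro h4
        obtain ⟨y, rfl⟩ := g0.surjective x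
        rw [mem_smul_iff, mem_ptset] at h4
        obtain ⟨i, rfl⟩ := h4
        exact ⟨i, (hg0a i).symm⟩
      · rintro ⟨i, rfl⟩
        rw [← hg0a, mem_smul_iff, mem_ptset]
        exact ⟨i, rfl⟩
    have hs1 : ptset j.1 ⊆ p1.V := (subset_union_right.trans subset_union_left).trans h2
    have hs2 : ptset j.2 ⊆ p1.V := subset_union_right.trans h2
    obtain ⟨q, k1, k2, _, k3, k4⟩ := p1.upd j (D' := ptset j.1) (g' := g0) hg0
      (p1.isK.str_ptset j.1 hs1) (by rw [hg0s]; exact p1.isK.str_ptset j.2 hs2)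
      (by
        intro h hh
        constructor
        · intro h4; exact absurd h4 (p1.isK.no_edge_ptset j.1 hh)
        · intro h4
          refine absurd h4 (p1.isK.no_edge_ptset j.2 ?_)
          rw [← hg0s]
          exact smul_finset_subset_smul_finset_iff.2 hh)
      (fun i => ⟨(mem_ptset _ _).2 ⟨i, rfl⟩, hg0a i⟩)
      (by rw [h3]; exact empty_subset _)
      (by rw [h3]; intro u hu; exact absurd hu (notMem_empty u))
    refine ⟨q, h1.trans k1, by rw [k2]; exact hF, ?_⟩
    intro i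
    rw [k3, k4]
    exact ⟨(mem_ptset _ _).2 ⟨i, rfl⟩, hg0a i⟩
  · exact ⟨p1, h1, hF, h3⟩

theorem dense3 {t : ℕ} (p : Cond t) (j : J t) (F : Finset U) : ∃ q, p ≤ q ∧ F ⊆ q.D j := by
  obtain ⟨p1, h1, h2, h3⟩ := activate p j F
  obtain ⟨V', H', g', r1, r2, r3, r4, r5, r6, r7⟩ :=
    ext_lemma p1.isK _ (p1.D j) (p1.g j) rfl (p1.srt j) (p1.strD j) (p1.strR j) (p1.iso j)
  obtain ⟨p2, k1, k2, k3, k4, k5⟩ := p1.grow r1 r2 r3
  obtain ⟨q, m1, m2, m3, m4, m5⟩ := p2.upd j (D' := p1.V) (g' := g') r4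
    (by rw [k2, k3]; exact r2) (by rw [k2, k3]; exact r6)
    (by rw [k3]; exact r7)
    (by
      intro i
      refine ⟨(p1.strD j).1 (h3 i).1, ?_⟩
      rw [r5 _ (h3 i).1]
      exact (h3 i).2)
    (by rw [k4]; exact (p1.strD j).1)
    (by rw [k4, k5]; exact r5)
  exact ⟨q, h1.trans (k1.trans m1), by rw [m4]; exact h2⟩

theorem dense4 {t : ℕ} (p : Cond t) (j : J t) (F : Finset U) :
    ∃ q, p ≤ q ∧ F ⊆ q.g j • q.D j := by
  obtain ⟨p1, h1, h2, h3⟩ := activate p j F
  have e1 : (p1.g j)⁻¹ • (p1.g j • p1.D j) = p1.D j := inv_smul_smul _ _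
  obtain ⟨V', H', k, r1, r2, r3, r4, r5, r6, r7⟩ :=
    ext_lemma p1.isK _ (p1.g j • p1.D j) (p1.g j)⁻¹ rfl (p1.srt j).inv (p1.strR j)
      (by rw [e1]; exact p1.strD j)
      (by
        intro h hh
        have e2 : p1.g j • ((p1.g j)⁻¹ • h) = h := smul_inv_smul _ _
        rw [← e2, smul_finset_subset_smul_finset_iff] at hh
        have e3 := p1.iso j _ hh
        rw [e2] at e3
        exact e3.symm)
  have e4 : k⁻¹ • (k • p1.V) = p1.V := inv_smul_smul _ _
  have e5 : ∀ u ∈ p1.D j, u ∈ k • p1.V ∧ k⁻¹ u = p1.g j u := by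
    intro u hu
    have e6 : p1.g j u ∈ p1.g j • p1.D j := by rw [mem_smul_iff]; exact hu
    have e7 : k (p1.g j u) = u := by
      rw [r5 _ e6]
      exact (p1.g j).symm_apply_apply u
    refine ⟨?_, ?_⟩
    · have e8 : k (p1.g j u) ∈ k • p1.V := by
        rw [mem_smul_iff]; exact (p1.strR j).1 e6
      rw [e7] at e8
      exact e8
    · have e9 : k⁻¹ (k (p1.g j u)) = p1.g j u := k.symm_apply_apply _
      rw [e7] at e9
      exact e9
  obtain ⟨p2, k1, k2, k3, k4, k5⟩ := p1.grow r1 r2 r3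
  obtain ⟨q, m1, m2, m3, m4, m5⟩ := p2.upd j (D' := k • p1.V) (g' := k⁻¹) r4.inv
    (by rw [k2, k3]; exact r6) (by rw [k2, k3, e4]; exact r2)
    (by
      rw [k3]
      intro h hh
      have e2 : k • (k⁻¹ • h) = h := smul_inv_smul _ _
      have e3 : k⁻¹ • h ⊆ p1.V := by
        rw [← e2, smul_finset_subset_smul_finset_iff] at hh
        exact hh
      have e6 := r7 _ e3
      rw [e2] at e6
      exact e6.symm)
    (by
      intro i
      have e6 := e5 _ (h3 i).1
      refine ⟨e6.1, ?_⟩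
      rw [e6.2]
      exact (h3 i).2)
    (by rw [k4]; exact fun u hu => (e5 u hu).1)
    (by rw [k4, k5]; exact fun u hu => (e5 u hu).2)
  exact ⟨q, h1.trans (k1.trans m1), by rw [m4, m5, e4]; exact h2⟩

/-- the empty condition -/
def p0 (t : ℕ) : Cond t where
  V := ∅
  H := ∅
  D := fun _ => ∅
  g := fun _ => 1
  isK := isK_empty t ∅
  srt := fun _ _ => rfl
  strD := fun _ => Str.refl _ _
  strR := fun _ => by rw [smul_finset_empty]; exact Str.refl _ _
  iso := fun _ h _ => by simp
  act := fun _ => Or.inl rfl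

/-- the tasks -/
abbrev Task (t : ℕ) := Finset U ⊕ Finset U ⊕ (J t × Finset U) ⊕ (J t × Finset U)

def goal {t : ℕ} : Task t → Set (Cond t)
  | Sum.inl F => {p | F ⊆ p.V}
  | Sum.inr (Sum.inl W) => {p | W.card = t → ((pts W).card = t ∨ (pts W).card + 1 = t) →
      ∃ h ∈ p.H, W ⊆ h}
  | Sum.inr (Sum.inr (Sum.inl (j, F))) => {p | F ⊆ p.D j}
  | Sum.inr (Sum.inr (Sum.inr (j, F))) => {p | F ⊆ p.g j • p.D j}

theorem goal_cofinal {t : ℕ} (i : Task t) (p : Cond t) : ∃ q ∈ goal i, p ≤ q := by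
  rcases i with F | W | ⟨j, F⟩ | ⟨j, F⟩
  · obtain ⟨q, h1, h2⟩ := dense1 p F; exact ⟨q, h2, h1⟩
  · by_cases hW : W.card = t ∧ ((pts W).card = t ∨ (pts W).card + 1 = t)
    · obtain ⟨q, h1, h2⟩ := dense2 p W hW.1 hW.2; exact ⟨q, fun _ _ => h2, h1⟩
    · exact ⟨p, fun h1 h2 => absurd ⟨h1, h2⟩ hW, le_rfl⟩
  · obtain ⟨q, h1, h2⟩ := dense3 p j F; exact ⟨q, h2, h1⟩
  · obtain ⟨q, h1, h2⟩ := dense4 p j F; exact ⟨q, h2, h1⟩

theorem exists_generic (t : ℕ) : ∃ I : Set (Cond t), (∀ p ∈ I, ∀ q ∈ I, ∃ r ∈ I, p ≤ r ∧ q ≤ r) ∧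
    ∀ i : Task t, ∃ p ∈ I, p ∈ goal i := by
  classical
  have hc : Countable (Fin (t + 1) ↪ ℕ) :=
    Function.Injective.countable (f := fun (a : Fin (t + 1) ↪ ℕ) => (a : Fin (t + 1) → ℕ))
      DFunLike.coe_injective
  let _ : Encodable (J t) := Encodable.ofCountable _
  let 𝒟 : Task t → Order.Cofinal (Cond t) := fun i => ⟨goal i, fun p => by
    obtain ⟨q, h1, h2⟩ := goal_cofinal i p; exact ⟨q, h1, h2⟩⟩
  refine ⟨(Order.idealOfCofinals (p0 t) 𝒟 : Order.Ideal (Cond t)), ?_, ?_⟩
  · intro p hp q hq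
    exact (Order.idealOfCofinals (p0 t) 𝒟).directed p hp q hq
  · intro i
    obtain ⟨x, h1, h2⟩ := Order.cofinal_meets_idealOfCofinals (p0 t) 𝒟 i
    exact ⟨x, h2, h1⟩

theorem core (t : ℕ) : ∃ E : Set (Finset U),
    (∀ h ∈ E, h.card = t + 1 ∧ (pts h).card = t) ∧
    (∀ W : Finset U, W.card = t → ((pts W).card = t ∨ (pts W).card + 1 = t) → ∃ h ∈ E, W ⊆ h) ∧
    (∀ h ∈ E, ∀ h' ∈ E, ∀ W : Finset U, W.card = t → W ⊆ h → W ⊆ h' → h = h') ∧
    ∀ j : J t, ∃ F : Equiv.Perm U, Srt F ∧ (∀ h : Finset U, F • h ∈ E ↔ h ∈ E) ∧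
      ∀ i, F (Sum.inl (j.1 i)) = Sum.inl (j.2 i) := by
  obtain ⟨I, hdir, hgen⟩ := exists_generic t
  let E : Set (Finset U) := {h | ∃ p ∈ I, h ∈ p.H}
  have hE : ∀ p ∈ I, ∀ h, h ⊆ p.V → (h ∈ E ↔ h ∈ p.H) := by
    intro p hp h hh
    constructor
    · rintro ⟨q, hq, hhq⟩
      obtain ⟨r, _, hpr, hqr⟩ := hdir p hp q hq
      exact (hpr.1 h hh).2 ((hqr.1 h (q.isK.sub h hhq)).1 hhq)
    · intro h1; exact ⟨p, hp, h1⟩
  refine ⟨E, ?_, ?_, ?_, ?_⟩
  · rintro h ⟨p, _, hh⟩
    exact ⟨p.isK.card h hh, p.isK.pcard h hh⟩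
  · intro W hW hp
    obtain ⟨p, h1, h2⟩ := hgen (Sum.inr (Sum.inl W))
    obtain ⟨h, h3, h4⟩ := h2 hW hp
    exact ⟨h, ⟨p, h1, h3⟩, h4⟩
  · rintro h ⟨p, hp, hh⟩ h' ⟨q, hq, hh'⟩ W hW h1 h2
    obtain ⟨r, _, hpr, hqr⟩ := hdir p hp q hq
    exact r.isK.lin h ((hpr.1 h (p.isK.sub h hh)).1 hh) h' ((hqr.1 h' (q.isK.sub h' hh')).1 hh')
      W hW h1 h2
  · intro j
    -- a condition whose domain contains a given finite set
    have hdom : ∀ F : Finset U, ∃ p ∈ I, F ⊆ p.D j := fun F =>
      hgen (Sum.inr (Sum.inr (Sum.inl (j, F))))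
    have hran : ∀ F : Finset U, ∃ p ∈ I, F ⊆ p.g j • p.D j := fun F =>
      hgen (Sum.inr (Sum.inr (Sum.inr (j, F))))
    choose P hPI hP using hdom
    let f : U → U := fun u => (P {u}).g j u
    have hf : ∀ p ∈ I, ∀ u ∈ p.D j, f u = p.g j u := by
      intro p hp u hu
      obtain ⟨r, _, h1, h2⟩ := hdir p hp _ (hPI {u})
      have h3 := (h1.2.2 j).2 u hu
      have h4 := (h2.2.2 j).2 u (hP {u} (mem_singleton_self u))
      show (P {u}).g j u = p.g j u
      rw [← h4, h3]
    have hinj : Function.Injective f := by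
      intro u v huv
      have h1 : u ∈ (P {u, v}).D j := hP {u, v} (by simp)
      have h2 : v ∈ (P {u, v}).D j := hP {u, v} (by simp)
      rw [hf _ (hPI _) u h1, hf _ (hPI _) v h2] at huv
      exact ((P {u, v}).g j).injective huv
    have hsurj : Function.Surjective f := by
      intro w
      obtain ⟨p, hp, h1⟩ := hran {w}
      have h2 : w ∈ p.g j • p.D j := h1 (mem_singleton_self w)
      obtain ⟨u, rfl⟩ := (p.g j).surjective w
      rw [mem_smul_iff] at h2
      exact ⟨u, hf p hp u h2⟩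
    let F : Equiv.Perm U := Equiv.ofBijective f ⟨hinj, hsurj⟩
    have hF : ∀ p ∈ I, ∀ h, h ⊆ p.D j → F • h = p.g j • h := by
      intro p hp h hh
      apply image_congr
      intro x hx
      exact hf p hp x (hh hx)
    refine ⟨F, ?_, ?_, ?_⟩
    · intro u
      exact (P {u}).srt j u
    · intro h
      have h1 := hP h
      have h2 := ((P h).strD j).1
      have h3 := ((P h).strR j).1
      rw [hF _ (hPI h) h h1, hE _ (hPI h) h (h1.trans h2),
        hE _ (hPI h) _ ((smul_finset_subset_smul_finset_iff.2 h1).trans h3)]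
      exact ((P h).iso j h h1).symm
    · intro i
      have h1 := hP {Sum.inl (j.1 i)}
      have h2 : Sum.inl (j.1 i) ∈ (P {Sum.inl (j.1 i)}).D j := h1 (mem_singleton_self _)
      rcases (P {Sum.inl (j.1 i)}).act j with h3 | h3
      · rw [h3] at h2; exact absurd h2 (notMem_empty _)
      · exact (h3 i).2

/-- the vertex set of the edge with point set `A` and colour `i` -/
def ed (A : Finset ℕ) (i : ℕ) : Finset U := insert (Sum.inr i) (A.map ⟨Sum.inl, Sum.inl_injective⟩)

theorem mem_ed_inl (A : Finset ℕ) (i x : ℕ) : (Sum.inl x : U) ∈ ed A i ↔ x ∈ A := by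
  unfold ed; simp

theorem mem_ed_inr (A : Finset ℕ) (i x : ℕ) : (Sum.inr x : U) ∈ ed A i ↔ x = i := by
  unfold ed; simp

theorem ed_inj {A B : Finset ℕ} {i k : ℕ} (h : ed A i = ed B k) : A = B ∧ i = k := by
  constructor
  · ext x
    rw [← mem_ed_inl A i, h, mem_ed_inl]
  · rw [← mem_ed_inr B k, ← h, mem_ed_inr]

/-- every edge has the form `ed A i` -/
theorem eq_ed {t : ℕ} {h : Finset U} (hc : h.card = t + 1) (hp : (pts h).card = t) :
    ∃ A i, h = ed A i ∧ A.card = t := by
  have h1 : h.toLeft.card + h.toRight.card = h.card := card_toLeft_add_card_toRight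
  have h2 : (pts h) = h.toLeft.map ⟨Sum.inl, Sum.inl_injective⟩ := by
    ext x
    unfold pts
    rw [mem_filter]
    cases x <;> simp
  rw [h2, card_map] at hp
  have h3 : h.toRight.card = 1 := by omega
  obtain ⟨i, hi⟩ := card_eq_one.1 h3
  refine ⟨h.toLeft, i, ?_, hp⟩
  ext x
  cases x with
  | inl x => rw [mem_ed_inl]; simp
  | inr x =>
    rw [mem_ed_inr, ← mem_singleton, ← hi]; simp

/-- there is a colouring of the `t`-subsets of `ℕ` such that every `(t-1)`-set lies in exactly one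
`t`-set of each colour, and whose automorphism group is `(t+1)`-transitive -/
theorem exists_colouring (t : ℕ) : ∃ c : Set.powersetCard ℕ t → ℕ,
    (∀ i : ℕ, ∀ W : Finset ℕ, W.card + 1 = t → ∃! A : Set.powersetCard ℕ t,
      c A = i ∧ W ⊆ (A : Finset ℕ)) ∧
    ∀ a b : Fin (t + 1) ↪ ℕ, ∃ σ : Equiv.Perm ℕ,
      (∀ A B : Set.powersetCard ℕ t, c (σ • A) = c (σ • B) ↔ c A = c B) ∧
      ∀ i, σ (a i) = b i := by
  obtain ⟨E, hE1, hE2, hE3, hE4⟩ := core t
  have hmapc : ∀ A : Finset ℕ, (A.map ⟨Sum.inl, Sum.inl_injective⟩ : Finset U).card = A.card :=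
    fun A => card_map _
  have hmapp : ∀ A : Finset ℕ, pts (A.map ⟨Sum.inl, Sum.inl_injective⟩ : Finset U)
      = A.map ⟨Sum.inl, Sum.inl_injective⟩ := by
    intro A
    unfold pts
    rw [filter_true_of_mem]
    intro x hx
    rw [mem_map] at hx
    obtain ⟨y, _, rfl⟩ := hx
    rfl
  have hedc : ∀ A : Set.powersetCard ℕ t, ∃ i, ed A i ∈ E := by
    intro A
    have hA : (A : Finset ℕ).card = t := A.2
    obtain ⟨h, hh, hs⟩ := hE2 ((A : Finset ℕ).map ⟨Sum.inl, Sum.inl_injective⟩)
      (by rw [hmapc, hA]) (Or.inl (by rw [hmapp, hmapc, hA]))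
    obtain ⟨B, i, rfl, hB⟩ := eq_ed (hE1 h hh).1 (hE1 h hh).2
    refine ⟨i, ?_⟩
    have h1 : (A : Finset ℕ) ⊆ B := by
      intro x hx
      rw [← mem_ed_inl B i]
      apply hs
      rw [mem_map]
      exact ⟨x, hx, rfl⟩
    have h2 : (A : Finset ℕ) = B := eq_of_subset_of_card_le h1 (by rw [hB, hA])
    rw [h2]; exact hh
  choose c hc using hedc
  have hcu : ∀ (A : Set.powersetCard ℕ t) (i : ℕ), ed A i ∈ E → c A = i := by
    intro A i hi
    have hA : (A : Finset ℕ).card = t := A.2
    have h1 := hE3 _ (hc A) _ hi ((A : Finset ℕ).map ⟨Sum.inl, Sum.inl_injective⟩)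
      (by rw [hmapc, hA]) (subset_insert _ _) (subset_insert _ _)
    exact (ed_inj h1).2
  refine ⟨c, ?_, ?_⟩
  · intro i W hW
    have hW1 : (ed W i).card = t := by
      unfold ed
      rw [card_insert_of_notMem (by simp), hmapc, hW]
    have hW2 : (pts (ed W i)).card + 1 = t := by
      have h3 : pts (ed W i) = W.map ⟨Sum.inl, Sum.inl_injective⟩ := by
        have h4 : pts (ed W i) = if (Sum.inr i : U).isLeft = true then
          insert (Sum.inr i) (pts (W.map ⟨Sum.inl, Sum.inl_injective⟩))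
          else pts (W.map ⟨Sum.inl, Sum.inl_injective⟩) := filter_insert _ _ _
        rw [h4, if_neg (by simp), hmapp]
      rw [h3, hmapc, hW]
    obtain ⟨h, hh, hs⟩ := hE2 (ed W i) hW1 (Or.inr hW2)
    obtain ⟨B, k, rfl, hB⟩ := eq_ed (hE1 h hh).1 (hE1 h hh).2
    have hk : i = k := by
      rw [← mem_ed_inr B k]
      apply hs
      rw [mem_ed_inr]
    subst hk
    have hWB : W ⊆ B := by
      intro x hx
      rw [← mem_ed_inl B i]
      apply hs
      rw [mem_ed_inl]
      exact hx
    refine ⟨⟨B, hB⟩, ⟨hcu ⟨B, hB⟩ i hh, hWB⟩, ?_⟩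
    rintro ⟨A, hA⟩ ⟨h1, h2⟩
    have h3 : ed A i ∈ E := by rw [← h1]; exact hc ⟨A, hA⟩
    have h4 : ed W i ⊆ ed A i := by
      unfold ed
      exact insert_subset_insert _ (map_subset_map.2 h2)
    have h5 := hE3 _ h3 _ hh (ed W i) hW1 h4 hs
    apply Subtype.ext
    exact (ed_inj h5).1
  · intro a b
    obtain ⟨F, hF1, hF2, hF3⟩ := hE4 (a, b)
    have hFl : ∀ x : ℕ, ∃ y : ℕ, F (Sum.inl x) = Sum.inl y := by
      intro x
      have := hF1 (Sum.inl x)
      rcases hFx : F (Sum.inl x) with y | y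
      · exact ⟨y, rfl⟩
      · rw [hFx] at this; simp at this
    have hFr : ∀ x : ℕ, ∃ y : ℕ, F (Sum.inr x) = Sum.inr y := by
      intro x
      have := hF1 (Sum.inr x)
      rcases hFx : F (Sum.inr x) with y | y
      · rw [hFx] at this; simp at this
      · exact ⟨y, rfl⟩
    choose s hs using hFl
    choose r hr using hFr
    have hsinj : Function.Injective s := by
      intro x y hxy
      have h1 : F (Sum.inl x) = F (Sum.inl y) := by rw [hs, hs, hxy]
      exact Sum.inl_injective (F.injective h1)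
    have hrinj : Function.Injective r := by
      intro x y hxy
      have h1 : F (Sum.inr x) = F (Sum.inr y) := by rw [hr, hr, hxy]
      exact Sum.inr_injective (F.injective h1)
    have hssurj : Function.Surjective s := by
      intro y
      obtain ⟨u, hu⟩ := F.surjective (Sum.inl y)
      rcases u with x | x
      · rw [hs] at hu; exact ⟨x, Sum.inl_injective hu⟩
      · rw [hr] at hu; simp at hu
    let σ : Equiv.Perm ℕ := Equiv.ofBijective s ⟨hsinj, hssurj⟩
    have hFed : ∀ (A : Finset ℕ) (i : ℕ), F • ed A i = ed (σ • A) (r i) := by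
      intro A i
      have h1 : F • ed A i = insert (F (Sum.inr i)) (F • (A.map ⟨Sum.inl, Sum.inl_injective⟩)) :=
        image_insert _ _ _
      rw [h1, hr]
      unfold ed
      congr 1
      ext x
      constructor
      · intro hx
        obtain ⟨u, rfl⟩ := F.surjective x
        rw [mem_smul_iff, mem_map] at hx
        obtain ⟨z, hz, rfl⟩ := hx
        rw [mem_map]
        refine ⟨σ z, ?_, (hs z).symm⟩
        exact (smul_mem_smul_finset_iff (b := z) σ).2 hz
      · intro hx
        rw [mem_map] at hx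
        obtain ⟨z, hz, rfl⟩ := hx
        obtain ⟨w, rfl⟩ := σ.surjective z
        have hw : w ∈ A := (smul_mem_smul_finset_iff (b := w) σ).1 hz
        have h2 : (⟨Sum.inl, Sum.inl_injective⟩ : ℕ ↪ U) (σ w) = F (Sum.inl w) := (hs w).symm
        rw [h2, mem_smul_iff, mem_map]
        exact ⟨w, hw, rfl⟩
    have hcol : ∀ A : Set.powersetCard ℕ t, c (σ • A) = r (c A) := by
      intro A
      apply hcu
      have h1 : ((σ • A : Set.powersetCard ℕ t) : Finset ℕ) = σ • (A : Finset ℕ) :=
        Set.powersetCard.coe_smul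
      rw [h1, ← hFed, hF2]
      exact hc A
    refine ⟨σ, ?_, ?_⟩
    · intro A B
      rw [hcol, hcol]
      exact hrinj.eq_iff
    · intro i
      have h1 := hF3 i
      rw [hs] at h1
      exact Sum.inl_injective h1

/-- the group of all permutations preserving the relation `having the same colour` -/
def autG {t : ℕ} (c : Set.powersetCard ℕ t → ℕ) : Subgroup (Equiv.Perm ℕ) where
  carrier := {σ | ∀ A B : Set.powersetCard ℕ t, c (σ • A) = c (σ • B) ↔ c A = c B}
  one_mem' := by
    intro A B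
    rw [one_smul, one_smul]
  mul_mem' := by
    intro σ τ hσ hτ A B
    rw [mul_smul, mul_smul, hσ, hτ]
  inv_mem' := by
    intro σ hσ A B
    have h := hσ (σ⁻¹ • A) (σ⁻¹ • B)
    rw [smul_inv_smul, smul_inv_smul] at h
    exact h.symm

theorem result (t : ℕ) (ht : 3 ≤ t) :
    ∃ G : Subgroup (Equiv.Perm ℕ),
      MulAction.IsMultiplyPretransitive G ℕ (t + 1) ∧
      ¬ MulAction.IsPreprimitive G (Set.powersetCard ℕ t) ∧
      ∃ S : Set (Set.powersetCard ℕ t),
        (S.Nontrivial ∧ S ≠ Set.univ ∧ ∀ g : G, g • S = S ∨ Disjoint (g • S) S) ∧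
        (∀ W : Finset ℕ, W.card = t - 1 →
          ∃! A : Set.powersetCard ℕ t, A ∈ S ∧ W ⊆ (A : Finset ℕ)) ∧
        ¬ (∀ x : ℕ, ∃! A : Set.powersetCard ℕ t, A ∈ S ∧ x ∈ (A : Finset ℕ)) := by
  obtain ⟨c, hc1, hc2⟩ := exists_colouring t
  let S : Set (Set.powersetCard ℕ t) := {A | c A = 0}
  have hSt : ∀ W : Finset ℕ, W.card = t - 1 →
      ∃! A : Set.powersetCard ℕ t, A ∈ S ∧ W ⊆ (A : Finset ℕ) := by
    intro W hW
    exact hc1 0 W (by omega)
  -- extending a finite set avoiding another one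
  have hext : ∀ (Z : Finset ℕ) (n : ℕ) (Y : Finset ℕ), Y.card ≤ n → Disjoint Y Z →
      ∃ W : Finset ℕ, Y ⊆ W ∧ W.card = n ∧ Disjoint W Z := by
    intro Z n Y hY hd
    have h1 : ((Z : Set ℕ)ᶜ).Infinite := Z.finite_toSet.infinite_compl
    obtain ⟨K, hK1, hK2⟩ := h1.exists_subset_card_eq n
    have h2 : n ≤ (Y ∪ K).card := by
      rw [← hK2]; exact card_le_card subset_union_right
    obtain ⟨W, hW1, hW2, hW3⟩ := exists_subsuperset_card_eq (subset_union_left (s₁ := Y) (s₂ := K)) hY h2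
    refine ⟨W, hW1, hW3, ?_⟩
    rw [disjoint_left]
    intro x hx hxZ
    rcases mem_union.1 (hW2 hx) with h3 | h3
    · exact disjoint_left.1 hd h3 hxZ
    · exact hK1 h3 hxZ
  -- a first block
  obtain ⟨W0, _, hW0, _⟩ := hext ∅ (t - 1) ∅ (by simp) (disjoint_empty_right _)
  obtain ⟨A0, ⟨hA0, hWA0⟩, hA0u⟩ := hSt W0 hW0
  have hA0c : (A0 : Finset ℕ).card = t := A0.2
  -- a point of it, and a point outside
  obtain ⟨x, hx⟩ : (A0 : Finset ℕ).Nonempty := by
    rw [← card_pos]; omega
  obtain ⟨y, hy⟩ := Infinite.exists_notMem_finset (A0 : Finset ℕ)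
  have hxy : x ≠ y := fun h => hy (h ▸ hx)
  obtain ⟨W1, hW1, hW1c, _⟩ := hext ∅ (t - 1) {x, y} (by rw [card_pair hxy]; omega)
    (disjoint_empty_right _)
  obtain ⟨A1, ⟨hA1, hWA1⟩, _⟩ := hSt W1 hW1c
  have hx1 : x ∈ (A1 : Finset ℕ) := hWA1 (hW1 (by simp))
  have hy1 : y ∈ (A1 : Finset ℕ) := hWA1 (hW1 (by simp))
  have hne : A0 ≠ A1 := by
    intro h
    rw [h] at hy
    exact hy hy1
  have hnt : S.Nontrivial := ⟨A0, hA0, A1, hA1, hne⟩
  have hnu : S ≠ Set.univ := by
    intro h
    have hy0 : y ∉ W0 := fun h1 => hy (hWA0 h1)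
    let B : Set.powersetCard ℕ t := ⟨insert y W0, by
      rw [Set.powersetCard.mem_iff, card_insert_of_notMem hy0]; omega⟩
    have hB : B ∈ S := by rw [h]; trivial
    have h1 := hA0u B ⟨hB, subset_insert _ _⟩
    apply hy
    rw [← h1]
    exact mem_insert_self _ _
  have hbl : ∀ g : autG c, g • S = S ∨ Disjoint (g • S) S := by
    intro g
    by_cases hd : Disjoint (g • S) S
    · exact Or.inr hd
    · left
      rw [Set.not_disjoint_iff] at hd
      obtain ⟨B, hB1, hB2⟩ := hd
      rw [Set.mem_smul_set] at hB1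
      obtain ⟨A, hA, rfl⟩ := hB1
      have hg := g.2
      ext C
      have hC : g • (g⁻¹ • C) = C := smul_inv_smul g C
      rw [← hC, Set.smul_mem_smul_set_iff]
      have h1 := hg (g⁻¹ • C) A
      have h2 : c (g • A) = 0 := hB2
      have h3 : c A = 0 := hA
      constructor
      · intro h4
        have h5 : c (g⁻¹ • C) = 0 := h4
        show c (g • (g⁻¹ • C)) = 0
        rw [← h2]
        exact h1.2 (by rw [h5, h3])
      · intro h4
        have h5 : c (g • (g⁻¹ • C)) = 0 := h4
        show c (g⁻¹ • C) = 0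
        rw [← h3]
        apply h1.1
        exact h5.trans h2.symm
  refine ⟨autG c, ⟨?_⟩, ?_, S, ⟨hnt, hnu, hbl⟩, hSt, ?_⟩
  · intro a b
    obtain ⟨σ, h1, h2⟩ := hc2 a b
    refine ⟨⟨σ, h1⟩, ?_⟩
    ext i
    exact h2 i
  · intro hprim
    have h1 : MulAction.IsBlock (autG c) S := by
      rw [MulAction.isBlock_iff_smul_eq_or_disjoint]
      exact hbl
    rcases hprim.isTrivialBlock_of_isBlock h1 with h2 | h2
    · exact (Set.not_subsingleton_iff.2 hnt) h2
    · exact hnu h2
  · intro hpart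
    obtain ⟨A, _, hA⟩ := hpart x
    exact hne ((hA A0 ⟨hA0, hx⟩).trans (hA A1 ⟨hA1, hx1⟩).symm)


end Pool.Agent.Results.MP_c0ccbe_al.Disproof
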